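import Mathlib

set_option autoImplicit false

namespace Pool.Agent.Results.MP_953c35_gt.Markov

open Set Filter Topology

variable {X : Type} [TopologicalSpace X]

/-- Ideal bases. -/
def IdealBase (A : Set (Set X)) : Prop := ∀ a ∈ A, ∀ b ∈ A, ∃ c ∈ A, a ∪ b ⊆ c

/-- Open covers that omit the whole space. -/
def ProperCover (U : Set (Set X)) : Prop := (∀ O ∈ U, IsOpen O) ∧ ⋃₀ U = univ ∧ univ ∉ U

/-- The family `O(X, B)`. -/
def OO (B : Set (Set X)) : Set (Set (Set X)) := {U | ProperCover U ∧ ∀ b ∈ B, ∃ O ∈ U, b ⊆ O}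

/-- The family `Γ(X, B)`. -/
def GG (B : Set (Set X)) : Set (Set (Set X)) :=
  {U | ProperCover U ∧ U.Infinite ∧ ∀ b ∈ B, {O ∈ U | ¬ b ⊆ O}.Finite}

/-- Two has a winning Markov strategy in `G_1(N[A], ¬P)`. -/
def TwoMarkov (A : Set (Set X)) (P : Set (Set (Set X))) : Prop :=
  ∃ σ : Set X → ℕ → Set X, (∀ a ∈ A, ∀ n, IsOpen (σ a n) ∧ a ⊆ σ a n ∧ σ a n ≠ univ) ∧
    ∀ a : ℕ → Set X, (∀ n, a n ∈ A) → (range fun n => σ (a n) n) ∉ P

def W : Type := (Cardinal.aleph.{0} 1).ord.ToType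

noncomputable instance : LinearOrder W := inferInstanceAs (LinearOrder (Cardinal.aleph.{0} 1).ord.ToType)
instance : WellFoundedLT W := inferInstanceAs (WellFoundedLT (Cardinal.aleph.{0} 1).ord.ToType)

instance : Uncountable W := by
  rw [← Cardinal.aleph0_lt_mk_iff]
  show _ < Cardinal.mk (Cardinal.aleph.{0} 1).ord.ToType
  simp [Cardinal.aleph0_lt_aleph_one]

lemma cnt (x : W) : (Iio x).Countable := by
  rw [← Cardinal.le_aleph0_iff_set_countable, ← Cardinal.lt_aleph_one_iff]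
  exact Cardinal.mk_Iio_ord_toType x

lemma bnd {S : Set W} (hS : S.Countable) : ∃ b, ∀ x ∈ S, x < b := by
  have : (⋃ x ∈ S, insert x (Iio x))ᶜ.Nonempty := by
    rw [nonempty_compl]
    intro e
    exact not_countable (countable_univ_iff.1 (e ▸ hS.biUnion fun x _ => (cnt x).insert x))
  obtain ⟨b, hb⟩ := this
  refine ⟨b, fun x hx => not_le.1 fun h => hb (mem_biUnion hx ?_)⟩
  exact h.eq_or_lt

def P : Type := {p : Set W // ∀ x ∈ p, (p ∩ Iio x).Finite}

def U (x : W) : Set P := {p | x ∉ p.1}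

instance : TopologicalSpace P where
  IsOpen O := ∀ p ∈ O, ∃ F : Set W, F.Finite ∧ Disjoint p.1 F ∧ ∀ q : P, Disjoint q.1 F → q ∈ O
  isOpen_univ := fun _ _ => ⟨∅, finite_empty, by simp, by simp⟩
  isOpen_inter := fun _ _ hs ht p h => by
    obtain ⟨F, a, b, c⟩ := hs p h.1
    obtain ⟨G, a', b', c'⟩ := ht p h.2
    exact ⟨F ∪ G, a.union a', disjoint_union_right.2 ⟨b, b'⟩, fun q h =>
      ⟨c q (disjoint_union_right.1 h).1, c' q (disjoint_union_right.1 h).2⟩⟩
  isOpen_sUnion := fun _ hS p ⟨O, hO, h⟩ => (hS O hO p h).imp fun _ h =>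
    ⟨h.1, h.2.1, fun q e => ⟨O, hO, h.2.2 q e⟩⟩

def fin (s : Set W) (h : s.Finite) : P := ⟨s, fun _ _ => h.inter_of_left _⟩

lemma U_open (x : W) : IsOpen (U x) := fun _ h => ⟨{x}, finite_singleton _,
  disjoint_singleton_right.2 h, fun _ e => disjoint_singleton_right.1 e⟩

lemma U_ne (x : W) : U x ≠ univ := fun e =>
  (show fin {x} (finite_singleton _) ∈ U x from e ▸ mem_univ _) rfl

lemma U_inj : Function.Injective U := fun x y h => by
  by_contra e
  have : fin {x} (finite_singleton _) ∈ U y := fun h' => e (mem_singleton_iff.1 h').symm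
  rw [← h] at this
  exact this rfl

def A (g : W) : Set P := {p | p.1 ⊆ Iio g}

theorem result : ∃ (X : Type) (_ : TopologicalSpace X) (A B : Set (Set X)), IdealBase A ∧
    (∀ a ∈ A, ∃ O, IsOpen O ∧ a ⊆ O ∧ O ≠ univ) ∧ TwoMarkov A (GG B) ∧ ¬ TwoMarkov A (OO B) := by
  classical
  have key : ∀ a ∈ range A, ∃ x, a ⊆ U x := by
    rintro _ ⟨g, rfl⟩
    exact ⟨g, fun p h h' => lt_irrefl g (h h')⟩
  refine ⟨P, inferInstance, range A, range singleton, ?_, fun a ha => (key a ha).elim fun x h =>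
    ⟨U x, U_open x, h, U_ne x⟩, ?_, ?_⟩
  · rintro _ ⟨a, rfl⟩ _ ⟨b, rfl⟩
    exact ⟨_, ⟨max a b, rfl⟩, union_subset (fun p h => h.trans (Iio_subset_Iio (le_max_left _ _)))
      fun p h => h.trans (Iio_subset_Iio (le_max_right _ _))⟩
  · haveI : Nonempty W := inferInstance
    choose! x hx using key
    refine ⟨fun a _ => U (x a), fun a ha _ => ⟨U_open _, hx a ha, U_ne _⟩, fun a _ h => ?_⟩
    have hi : (range fun n => x (a n)).Infinite := fun hf =>
      h.2.1 ((hf.image U).subset (by rintro _ ⟨n, rfl⟩; exact ⟨_, ⟨n, rfl⟩, rfl⟩))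
    let e := hi.natEmbedding
    obtain ⟨φ, hφ⟩ := (wellQuasiOrdered_le (α := W)).exists_monotone_subseq fun n => (e n).1
    have hinj : Function.Injective fun n => (e (φ n)).1 :=
      Subtype.val_injective.comp (e.injective.comp φ.injective)
    have hs := Monotone.strictMono_of_injective (f := fun n => (e (φ n)).1) hφ hinj
    let p : P := ⟨range fun n => (e (φ n)).1, by
      rintro _ ⟨n, rfl⟩
      refine ((finite_Iio n).image fun n => (e (φ n)).1).subset ?_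
      rintro _ ⟨⟨m, rfl⟩, hm⟩
      exact ⟨m, hs.lt_iff_lt.1 hm, rfl⟩⟩
    refine infinite_range_of_injective (U_inj.comp hinj) ((h.2.2 {p} ⟨p, rfl⟩).subset ?_)
    rintro _ ⟨n, rfl⟩
    obtain ⟨m, hm⟩ := (e (φ n)).2
    exact ⟨⟨m, congrArg U hm⟩, fun h => h rfl ⟨n, rfl⟩⟩
  · rintro ⟨σ, h1, h2⟩
    have step : ∀ g n, ∃ g', g < g' ∧ ∀ q : P, q ∉ σ (A g) n → (q.1 ∩ Iio g).Finite →
        ∃ x ∈ q.1, g ≤ x ∧ x < g' := by
      intro g n
      obtain ⟨a, b, -⟩ := h1 _ ⟨g, rfl⟩ n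
      choose F c d e using fun s : {s : Set W | s.Finite ∧ s ⊆ Iio g} => a (fin s s.2.1) (b s.2.2)
      haveI := (countable_ofPred_finite_subset (cnt g)).to_subtype
      obtain ⟨g', hg⟩ := bnd ((countable_iUnion fun s => (c s).countable).insert g)
      refine ⟨g', hg g (Or.inl rfl), fun q hq hf => ?_⟩
      obtain ⟨x, x1, x2⟩ := not_disjoint_iff.1 fun h => hq (e ⟨_, hf, inter_subset_right⟩ q h)
      exact ⟨x, x1, not_lt.1 fun h => disjoint_left.1 (d ⟨_, hf, inter_subset_right⟩) ⟨x1, h⟩ x2,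
        hg x (Or.inr (mem_iUnion.2 ⟨_, x2⟩))⟩
    choose nx n1 n2 using step
    let g : ℕ → W := fun n => Nat.rec (Classical.arbitrary W) (fun n a => nx a (n + 1)) n
    have hg : StrictMono g := strictMono_nat_of_lt_succ fun n => n1 _ _
    obtain ⟨b, hb⟩ := bnd (countable_range g)
    let a : ℕ → Set P := fun n => Nat.casesOn n (A b) fun n => A (g n)
    have ha : ∀ n, a n ∈ range A := fun n => by cases n <;> exact ⟨_, rfl⟩
    have cov : ∀ q : P, ∃ n, q ∈ σ (a n) n := by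
      intro q
      by_contra hh
      push Not at hh
      obtain ⟨y, y1, y2⟩ := not_subset.1 fun h => hh 0 ((h1 _ ⟨b, rfl⟩ 0).2.1 h)
      have hf : ∀ n, q.1 ∩ Iio (g n) ⊆ q.1 ∩ Iio y := fun n => inter_subset_inter_right _
        (Iio_subset_Iio ((hb _ ⟨n, rfl⟩).le.trans (not_lt.1 y2)))
      choose x x1 x2 x3 using fun n => n2 (g n) (n + 1) q (hh (n + 1)) ((q.2 y y1).subset (hf n))
      have : StrictMono x := strictMono_nat_of_lt_succ fun n => (x3 n).trans_le (x2 (n + 1))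
      refine infinite_range_of_injective this.injective ((q.2 y y1).subset ?_)
      rintro _ ⟨n, rfl⟩
      exact hf (n + 1) ⟨x1 n, x3 n⟩
    refine h2 a ha ⟨⟨?_, eq_univ_of_forall fun q => (cov q).elim fun n h => ⟨_, ⟨n, rfl⟩, h⟩, ?_⟩, ?_⟩
    · rintro _ ⟨n, rfl⟩
      exact (h1 _ (ha n) n).1
    · rintro ⟨n, h⟩
      exact (h1 _ (ha n) n).2.2 h
    · rintro _ ⟨q, rfl⟩
      exact (cov q).elim fun n h => ⟨_, ⟨n, rfl⟩, singleton_subset_iff.2 h⟩

end Pool.Agent.Results.MP_953c35_gt.Markov
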